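import Pool.Agent.H86.InvD

set_option autoImplicit false

namespace Pool.Agent.Results.MP_b9c098_an.FiveInv

theorem result (H : Type) [NormedAddCommGroup H] [InnerProductSpace ℂ H] [CompleteSpace H]
    (hH : ¬FiniteDimensional ℂ H) (T : H →L[ℂ] H) (hT : IsUnit T) :
    ∃ T₁ T₂ T₃ T₄ T₅ : H →L[ℂ] H, T₁ * T₁ = 1 ∧ T₂ * T₂ = 1 ∧ T₃ * T₃ = 1 ∧ T₄ * T₄ = 1 ∧
      T₅ * T₅ = 1 ∧ T = T₁ * T₂ * T₃ * T₄ * T₅ := by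
  obtain ⟨U, rfl⟩ := hT
  obtain ⟨J, _, _, h1, ⟨a, b, h2, h3, rfl⟩, ⟨c, d, h4, h5, rfl⟩, h⟩ :=
    Pool.Agent.H86.Inv.five hH U.mul_inv U.inv_mul
  exact ⟨J, a, b, c, d, h1, h2, h3, h4, h5, by rw [h]; simp only [mul_assoc]⟩

end Pool.Agent.Results.MP_b9c098_an.FiveInv
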